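import Pool.Agent.Lib_MP_02aa3f_co.Geometry

/-! Upper bound for the area of a union of pieces through a covering by trapezoids. -/

set_option autoImplicit false

open MeasureTheory Set

namespace Pool.Agent.LatCatch

lemma vol_trap {p q α β γ δ : ℝ} (hpq : p ≤ q)
    (h : ∀ y ∈ Icc p q, α + β * y ≤ γ + δ * y) :
    volume {z : ℝ × ℝ | p ≤ z.2 ∧ z.2 ≤ q ∧ α + β * z.2 ≤ z.1 ∧ z.1 ≤ γ + δ * z.2} =
      ENNReal.ofReal ((γ - α) * (q - p) + (δ - β) * ((q ^ 2 - p ^ 2) / 2)) := by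
  have hmeas : MeasurableSet
      {z : ℝ × ℝ | p ≤ z.2 ∧ z.2 ≤ q ∧ α + β * z.2 ≤ z.1 ∧ z.1 ≤ γ + δ * z.2} := by
    exact (measurableSet_le measurable_const measurable_snd).inter
      ((measurableSet_le measurable_snd measurable_const).inter
        ((measurableSet_le (f := fun z : ℝ × ℝ => α + β * z.2) (by fun_prop)
          measurable_fst).inter
          (measurableSet_le measurable_fst (g := fun z : ℝ × ℝ => γ + δ * z.2) (by fun_prop))))
  rw [Measure.volume_eq_prod, Measure.prod_apply_symm hmeas]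
  have hsl : ∀ y : ℝ, volume ((fun x : ℝ => (x, y)) ⁻¹'
      {z : ℝ × ℝ | p ≤ z.2 ∧ z.2 ≤ q ∧ α + β * z.2 ≤ z.1 ∧ z.1 ≤ γ + δ * z.2}) =
      (Icc p q).indicator (fun y => ENNReal.ofReal ((γ - α) + (δ - β) * y)) y := by
    intro y
    by_cases hy : y ∈ Icc p q
    · rw [indicator_of_mem hy]
      have : ((fun x : ℝ => (x, y)) ⁻¹'
          {z : ℝ × ℝ | p ≤ z.2 ∧ z.2 ≤ q ∧ α + β * z.2 ≤ z.1 ∧ z.1 ≤ γ + δ * z.2}) =
          Icc (α + β * y) (γ + δ * y) := by
        ext x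
        simp only [mem_preimage, mem_ofPred_eq, mem_Icc]
        exact ⟨fun h => h.2.2, fun h => ⟨hy.1, hy.2, h⟩⟩
      rw [this, Real.volume_Icc]
      congr 1; ring
    · rw [indicator_of_notMem hy]
      have : ((fun x : ℝ => (x, y)) ⁻¹'
          {z : ℝ × ℝ | p ≤ z.2 ∧ z.2 ≤ q ∧ α + β * z.2 ≤ z.1 ∧ z.1 ≤ γ + δ * z.2}) = ∅ := by
        ext x
        simp only [mem_preimage, mem_ofPred_eq, mem_empty_iff_false, iff_false]
        exact fun h => hy ⟨h.1, h.2.1⟩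
      rw [this, measure_empty]
  simp_rw [hsl]
  rw [lintegral_indicator measurableSet_Icc]
  have hint : IntegrableOn (fun y : ℝ => (γ - α) + (δ - β) * y) (Icc p q) volume := by
    apply Continuous.integrableOn_Icc
    fun_prop
  rw [← ofReal_integral_eq_lintegral_ofReal hint]
  · congr 1
    rw [integral_Icc_eq_integral_Ioc, ← intervalIntegral.integral_of_le hpq,
      intervalIntegral.integral_add, intervalIntegral.integral_const,
      intervalIntegral.integral_const_mul, integral_id]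
    · simp only [smul_eq_mul]; ring
    · apply Continuous.intervalIntegrable; fun_prop
    · apply Continuous.intervalIntegrable; fun_prop
  · filter_upwards [self_mem_ae_restrict measurableSet_Icc] with y hy
    have := h y hy
    simp only [Pi.zero_apply]
    linarith

/-- a trapezoid `a ≤ y ≤ b` with horizontal sides `[xla, xra]` at `a`, `[xlb, xrb]` at `b` -/
def inT (a b : ℤ) (t : ℤ × ℤ × ℤ × ℤ) (x y : ℝ) : Prop :=
  (a : ℝ) ≤ y ∧ y ≤ b ∧ (t.1 : ℝ) * (b - a) + (t.2.1 - t.1) * (y - a) ≤ x * (b - a) ∧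
    x * (b - a) ≤ (t.2.2.1 : ℝ) * (b - a) + (t.2.2.2 - t.2.2.1) * (y - a)

/-- twice the area of a trapezoid -/
def area2 (a b : ℤ) (t : ℤ × ℤ × ℤ × ℤ) : ℤ := (b - a) * (t.2.2.1 - t.1 + t.2.2.2 - t.2.1)

/-- validity of the trapezoid -/
def okT (t : ℤ × ℤ × ℤ × ℤ) : Bool := nn (t.2.2.1 - t.1) && nn (t.2.2.2 - t.2.1)

lemma iff_aux {A B C D k : ℝ} (hk : 0 < k) (h : D - C = (B - A) / k) : A ≤ B ↔ C ≤ D := by
  constructor
  · intro h1
    have : 0 ≤ (B - A) / k := div_nonneg (sub_nonneg.2 h1) hk.le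
    linarith
  · intro h1
    by_contra h2
    push Not at h2
    have : (B - A) / k < 0 := div_neg_of_neg_of_pos (by linarith) hk
    linarith

lemma vol_inT {U a b : ℤ} (hU : 0 < U) (hab : a < b) {t : ℤ × ℤ × ℤ × ℤ} (ht : okT t = true) :
    volume {z : ℝ × ℝ | inT a b t (U * z.1) (U * z.2)} =
      ENNReal.ofReal ((area2 a b t : ℝ) / (2 * U ^ 2)) := by
  have hU0 : (0 : ℝ) < U := by exact_mod_cast hU
  have hba : (0 : ℝ) < b - a := by
    have : (a : ℝ) < b := by exact_mod_cast hab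
    linarith
  unfold okT at ht
  rw [Bool.and_eq_true, nn_iff, nn_iff] at ht
  have t1 : (t.1 : ℝ) ≤ t.2.2.1 := by
    have := ht.1; exact_mod_cast (by linarith : t.1 ≤ t.2.2.1)
  have t2 : (t.2.1 : ℝ) ≤ t.2.2.2 := by
    have := ht.2; exact_mod_cast (by linarith : t.2.1 ≤ t.2.2.2)
  have key := vol_trap (p := (a : ℝ) / U) (q := (b : ℝ) / U)
    (α := (t.1 - (t.2.1 - t.1) * a / (b - a)) / U) (β := (t.2.1 - t.1) / (b - a))
    (γ := (t.2.2.1 - (t.2.2.2 - t.2.2.1) * a / (b - a)) / U)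
    (δ := (t.2.2.2 - t.2.2.1) / (b - a))
    (div_le_div_of_nonneg_right (by linarith) hU0.le)
    (by
      intro y hy
      obtain ⟨hy1, hy2⟩ := hy
      rw [div_le_iff₀ hU0] at hy1
      rw [le_div_iff₀ hU0] at hy2
      have h1 : 0 ≤ ((t.2.2.1 : ℝ) - t.1) * (b - y * U) := mul_nonneg (by linarith) (by linarith)
      have h2 : 0 ≤ ((t.2.2.2 : ℝ) - t.2.1) * (y * U - a) := mul_nonneg (by linarith) (by linarith)
      have h3 : ((t.2.2.1 - (t.2.2.2 - t.2.2.1) * a / (b - a)) / U +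
          (t.2.2.2 - t.2.2.1) / (b - a) * y) -
          ((t.1 - (t.2.1 - t.1) * a / (b - a)) / U + (t.2.1 - t.1) / (b - a) * y) =
          (((t.2.2.1 : ℝ) - t.1) * (b - y * U) + ((t.2.2.2 : ℝ) - t.2.1) * (y * U - a)) /
            ((b - a) * U) := by
        field_simp
        ring
      rw [← sub_nonneg, h3]
      positivity)
  have hset : {z : ℝ × ℝ | inT a b t (U * z.1) (U * z.2)} =
      {z : ℝ × ℝ | (a : ℝ) / U ≤ z.2 ∧ z.2 ≤ (b : ℝ) / U ∧
        (t.1 - (t.2.1 - t.1) * a / (b - a)) / U + (t.2.1 - t.1) / (b - a) * z.2 ≤ z.1 ∧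
        z.1 ≤ (t.2.2.1 - (t.2.2.2 - t.2.2.1) * a / (b - a)) / U +
          (t.2.2.2 - t.2.2.1) / (b - a) * z.2} := by
    ext z
    simp only [mem_ofPred_eq, inT]
    rw [div_le_iff₀ hU0, le_div_iff₀ hU0, mul_comm z.2 (U : ℝ)]
    have e1 : ((t.1 : ℝ) * (b - a) + (t.2.1 - t.1) * (U * z.2 - a) ≤ U * z.1 * (b - a)) ↔
        (t.1 - (t.2.1 - t.1) * a / (b - a)) / U + (t.2.1 - t.1) / (b - a) * z.2 ≤ z.1 := by
      refine iff_aux (k := (b - a) * U) (by positivity) ?_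
      field_simp
      ring
    have e2 : (U * z.1 * (b - a) ≤ (t.2.2.1 : ℝ) * (b - a) +
          (t.2.2.2 - t.2.2.1) * (U * z.2 - a)) ↔
        z.1 ≤ (t.2.2.1 - (t.2.2.2 - t.2.2.1) * a / (b - a)) / U +
          (t.2.2.2 - t.2.2.1) / (b - a) * z.2 := by
      refine iff_aux (k := (b - a) * U) (by positivity) ?_
      field_simp
      ring
    rw [e1, e2]
  rw [hset, key]
  congr 1
  unfold area2
  push_cast
  field_simp
  ring

/-! ### covering pieces by trapezoids -/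

/-- flatten slabs into a list of trapezoids -/
def flat : ℤ → List (ℤ × List (ℤ × ℤ × ℤ × ℤ)) → List (ℤ × ℤ × ℤ × ℤ × ℤ × ℤ)
  | _, [] => []
  | a, z :: rest => z.2.map (fun t => (a, z.1, t)) ++ flat z.1 rest

/-- the piece is inside the trapezoid, for heights in `[a', b']` -/
def covT (P : Piece) (a b a' b' : ℤ) (t : ℤ × ℤ × ℤ × ℤ) : Bool :=
  P.L.any (fun l =>
    nn ((l.2.2 - l.2.1 * a') * (b - a) - l.1 * (t.1 * (b - a) + (t.2.1 - t.1) * (a' - a))) &&
    nn ((l.2.2 - l.2.1 * b') * (b - a) - l.1 * (t.1 * (b - a) + (t.2.1 - t.1) * (b' - a)))) &&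
  P.R.any (fun r =>
    nn (r.1 * (t.2.2.1 * (b - a) + (t.2.2.2 - t.2.2.1) * (a' - a)) -
      (r.2.2 - r.2.1 * a') * (b - a)) &&
    nn (r.1 * (t.2.2.1 * (b - a) + (t.2.2.2 - t.2.2.1) * (b' - a)) -
      (r.2.2 - r.2.1 * b') * (b - a)))

/-- the piece is covered in the slab -/
def covS (P : Piece) (a b : ℤ) (ts : List (ℤ × ℤ × ℤ × ℤ)) : Bool :=
  nn (max a P.lo - min b P.hi - 1) || ts.any (covT P a b (max a P.lo) (min b P.hi))

/-- covering check -/
def covAll (pcs : List Piece) : ℤ → List (ℤ × List (ℤ × ℤ × ℤ × ℤ)) → Bool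
  | a, [] => pcs.all (fun P => nn (a - P.hi))
  | a, z :: rest => nn (z.1 - a - 1) && z.2.all okT && pcs.all (fun P => covS P a z.1 z.2) &&
      covAll pcs z.1 rest

lemma covT_sound {P : Piece} (hP : posP P = true) {a b a' b' : ℤ} (hab : a < b)
    {t : ℤ × ℤ × ℤ × ℤ}
    (h : covT P a b a' b' t = true) {x y : ℝ} (hx : inP P x y) (h1 : (a : ℝ) ≤ y) (h2 : y ≤ b)
    (h3 : (a' : ℝ) ≤ y) (h4 : y ≤ b') : inT a b t x y := by
  have hba : (0 : ℝ) < b - a := by
    have : (a : ℝ) < b := by exact_mod_cast hab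
    linarith
  unfold covT at h
  rw [Bool.and_eq_true, List.any_eq_true, List.any_eq_true] at h
  obtain ⟨⟨l, hl, hl2⟩, ⟨r, hr, hr2⟩⟩ := h
  rw [Bool.and_eq_true, nn_iff, nn_iff] at hl2 hr2
  have hlx := hx.2.2.1 l hl
  have hrx := hx.2.2.2 r hr
  have hl0 : (0 : ℝ) < l.1 := by exact_mod_cast posP_L hP hl
  have hr0 : (0 : ℝ) < r.1 := by exact_mod_cast posP_R hP hr
  have la : (0 : ℝ) ≤ (l.2.2 - l.2.1 * a') * (b - a) -
      l.1 * (t.1 * (b - a) + (t.2.1 - t.1) * (a' - a)) := by exact_mod_cast hl2.1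
  have lb : (0 : ℝ) ≤ (l.2.2 - l.2.1 * b') * (b - a) -
      l.1 * (t.1 * (b - a) + (t.2.1 - t.1) * (b' - a)) := by exact_mod_cast hl2.2
  have ra : (0 : ℝ) ≤ r.1 * (t.2.2.1 * (b - a) + (t.2.2.2 - t.2.2.1) * (a' - a)) -
      (r.2.2 - r.2.1 * a') * (b - a) := by exact_mod_cast hr2.1
  have rb : (0 : ℝ) ≤ r.1 * (t.2.2.1 * (b - a) + (t.2.2.2 - t.2.2.1) * (b' - a)) -
      (r.2.2 - r.2.1 * b') * (b - a) := by exact_mod_cast hr2.2
  have aff : ∀ (A B : ℝ), 0 ≤ A + B * a' → 0 ≤ A + B * b' → 0 ≤ A + B * y := by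
    intro A B hA hB
    rcases le_total 0 B with h | h
    · nlinarith [mul_le_mul_of_nonneg_left h3 h]
    · nlinarith [mul_le_mul_of_nonpos_left h4 h]
  refine ⟨h1, h2, ?_, ?_⟩
  · have := aff (l.2.2 * (b - a) - l.1 * (t.1 * (b - a) - (t.2.1 - t.1) * a))
      (-(l.2.1 * (b - a)) - l.1 * (t.2.1 - t.1)) (by linarith) (by linarith)
    have h5 := mul_le_mul_of_nonneg_right hlx hba.le
    have h6 : (l.1 : ℝ) * (t.1 * (b - a) + (t.2.1 - t.1) * (y - a)) ≤ l.1 * (x * (b - a)) := by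
      nlinarith
    exact le_of_mul_le_mul_left h6 hl0
  · have := aff (r.1 * (t.2.2.1 * (b - a) - (t.2.2.2 - t.2.2.1) * a) - r.2.2 * (b - a))
      (r.2.1 * (b - a) + r.1 * (t.2.2.2 - t.2.2.1)) (by linarith) (by linarith)
    have h5 := mul_le_mul_of_nonneg_right hrx hba.le
    have h6 : (r.1 : ℝ) * (x * (b - a)) ≤
        r.1 * (t.2.2.1 * (b - a) + (t.2.2.2 - t.2.2.1) * (y - a)) := by
      nlinarith
    exact le_of_mul_le_mul_left h6 hr0

lemma cov_sound {pcs : List Piece} (hpos : posAll pcs = true) {P : Piece} (hP : P ∈ pcs)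
    {x y : ℝ} (hx : inP P x y) :
    ∀ (S : List (ℤ × List (ℤ × ℤ × ℤ × ℤ))) (a : ℤ), covAll pcs a S = true → (a : ℝ) ≤ y →
      (y = a ∧ S = []) ∨ ∃ t ∈ flat a S, inT t.1 t.2.1 t.2.2 x y := by
  have hPpos : posP P = true := by
    unfold posAll at hpos
    rw [List.all_eq_true] at hpos
    exact hpos P hP
  intro S
  induction S with
  | nil =>
    intro a h hy
    left
    unfold covAll at h
    rw [List.all_eq_true] at h
    have h1 := nn_iff.mp (h P hP)
    have h2 : (P.hi : ℝ) ≤ a := by exact_mod_cast (by linarith : P.hi ≤ a)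
    have h3 := hx.2.1
    exact ⟨by linarith, rfl⟩
  | cons z rest ih =>
    intro a h hy
    right
    unfold covAll at h
    simp only [Bool.and_eq_true] at h
    obtain ⟨⟨⟨h1, h2⟩, h3⟩, h4⟩ := h
    rw [nn_iff] at h1
    by_cases hyz : y ≤ z.1
    · rw [List.all_eq_true] at h3
      have h5 := h3 P hP
      unfold covS at h5
      rw [Bool.or_eq_true] at h5
      have hmax : ((max a P.lo : ℤ) : ℝ) ≤ y := by
        rw [Int.cast_max]; exact max_le hy hx.1
      have hmin : y ≤ ((min z.1 P.hi : ℤ) : ℝ) := by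
        rw [Int.cast_min]; exact le_min hyz hx.2.1
      rcases h5 with h5 | h5
      · exfalso
        rw [nn_iff] at h5
        have : ((min z.1 P.hi : ℤ) : ℝ) < ((max a P.lo : ℤ) : ℝ) := by
          exact_mod_cast (by linarith : min z.1 P.hi < max a P.lo)
        linarith
      · rw [List.any_eq_true] at h5
        obtain ⟨t, ht, ht2⟩ := h5
        refine ⟨(a, z.1, t), ?_, ?_⟩
        · unfold flat
          exact List.mem_append_left _ (List.mem_map.mpr ⟨t, ht, rfl⟩)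
        · exact covT_sound hPpos (by linarith) ht2 hx hy hyz hmax hmin
    · push Not at hyz
      rcases ih z.1 h4 hyz.le with h5 | ⟨t, ht, ht2⟩
      · exact absurd h5.1 (ne_of_gt hyz)
      · refine ⟨t, ?_, ht2⟩
        unfold flat
        exact List.mem_append_right _ ht

/-- total (twice) area -/
def tot2 : List (ℤ × ℤ × ℤ × ℤ × ℤ × ℤ) → ℤ
  | [] => 0
  | t :: rest => area2 t.1 t.2.1 t.2.2 + tot2 rest

lemma vol_list {U : ℤ} (hU : 0 < U) :
    ∀ l : List (ℤ × ℤ × ℤ × ℤ × ℤ × ℤ),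
      (∀ t ∈ l, t.1 < t.2.1 ∧ okT t.2.2 = true) →
      0 ≤ tot2 l ∧ volume {z : ℝ × ℝ | ∃ t ∈ l, inT t.1 t.2.1 t.2.2 (U * z.1) (U * z.2)} ≤
        ENNReal.ofReal ((tot2 l : ℝ) / (2 * U ^ 2)) := by
  intro l
  induction l with
  | nil => intro _; simp [tot2]
  | cons t rest ih =>
    intro h
    obtain ⟨ih1, ih2⟩ := ih (fun t ht => h t (List.mem_cons_of_mem _ ht))
    obtain ⟨ht1, ht2⟩ := h t List.mem_cons_self
    have hU0 : (0 : ℝ) < U := by exact_mod_cast hU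
    have ha : 0 ≤ area2 t.1 t.2.1 t.2.2 := by
      unfold okT at ht2
      rw [Bool.and_eq_true, nn_iff, nn_iff] at ht2
      unfold area2
      have h1 : 0 ≤ t.2.1 - t.1 := by linarith
      have h2 : 0 ≤ t.2.2.2.2.1 - t.2.2.1 + t.2.2.2.2.2 - t.2.2.2.1 := by linarith [ht2.1, ht2.2]
      exact mul_nonneg h1 h2
    refine ⟨by unfold tot2; linarith, ?_⟩
    have hset : {z : ℝ × ℝ | ∃ t' ∈ t :: rest, inT t'.1 t'.2.1 t'.2.2 (U * z.1) (U * z.2)} ⊆
        {z : ℝ × ℝ | inT t.1 t.2.1 t.2.2 (U * z.1) (U * z.2)} ∪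
        {z : ℝ × ℝ | ∃ t' ∈ rest, inT t'.1 t'.2.1 t'.2.2 (U * z.1) (U * z.2)} := by
      rintro z ⟨t', ht', hz⟩
      rcases List.mem_cons.mp ht' with rfl | h'
      · left; exact hz
      · right; exact ⟨t', h', hz⟩
    calc volume {z : ℝ × ℝ | ∃ t' ∈ t :: rest, inT t'.1 t'.2.1 t'.2.2 (U * z.1) (U * z.2)}
        ≤ volume ({z : ℝ × ℝ | inT t.1 t.2.1 t.2.2 (U * z.1) (U * z.2)} ∪
          {z : ℝ × ℝ | ∃ t' ∈ rest, inT t'.1 t'.2.1 t'.2.2 (U * z.1) (U * z.2)}) :=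
          measure_mono hset
      _ ≤ _ := measure_union_le _ _
      _ ≤ ENNReal.ofReal ((area2 t.1 t.2.1 t.2.2 : ℝ) / (2 * U ^ 2)) +
          ENNReal.ofReal ((tot2 rest : ℝ) / (2 * U ^ 2)) := by
          rw [vol_inT hU ht1 ht2]
          gcongr
      _ = ENNReal.ofReal ((tot2 (t :: rest) : ℝ) / (2 * U ^ 2)) := by
          have hA : (0 : ℝ) ≤ (area2 t.1 t.2.1 t.2.2 : ℝ) := by exact_mod_cast ha
          have hB : (0 : ℝ) ≤ (tot2 rest : ℝ) := by exact_mod_cast ih1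
          rw [← ENNReal.ofReal_add (by positivity) (by positivity)]
          congr 1
          have : tot2 (t :: rest) = area2 t.1 t.2.1 t.2.2 + tot2 rest := rfl
          rw [this]
          push_cast
          ring

lemma flat_ok {pcs : List Piece} :
    ∀ (S : List (ℤ × List (ℤ × ℤ × ℤ × ℤ))) (a : ℤ), covAll pcs a S = true →
      ∀ t ∈ flat a S, t.1 < t.2.1 ∧ okT t.2.2 = true := by
  intro S
  induction S with
  | nil => intro a _ t ht; simp [flat] at ht
  | cons z rest ih =>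
    intro a h t ht
    unfold covAll at h
    simp only [Bool.and_eq_true] at h
    obtain ⟨⟨⟨h1, h2⟩, h3⟩, h4⟩ := h
    rw [nn_iff] at h1
    unfold flat at ht
    rcases List.mem_append.mp ht with h5 | h5
    · obtain ⟨t', ht', rfl⟩ := List.mem_map.mp h5
      rw [List.all_eq_true] at h2
      exact ⟨by simpa using (by linarith : a < z.1), h2 t' ht'⟩
    · exact ih z.1 h4 t h5

lemma measurable_setOf' (U : ℤ) (pcs : List Piece) : MeasurableSet (setOf' U pcs) := by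
  have h0 : Measurable (fun z : Plane => (U : ℝ) * z 0) := by fun_prop
  have h1 : Measurable (fun z : Plane => (U : ℝ) * z 1) := by fun_prop
  have hP : ∀ P : Piece, MeasurableSet {z : Plane | inP P (U * z 0) (U * z 1)} := by
    intro P
    have e : {z : Plane | inP P (U * z 0) (U * z 1)} =
        {z : Plane | (P.lo : ℝ) ≤ U * z 1} ∩ ({z : Plane | (U : ℝ) * z 1 ≤ P.hi} ∩
        ((⋂ l ∈ {l | l ∈ P.L}, {z : Plane | (l.2.2 : ℝ) ≤ l.1 * (U * z 0) + l.2.1 * (U * z 1)}) ∩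
        (⋂ r ∈ {r | r ∈ P.R}, {z : Plane | (r.1 : ℝ) * (U * z 0) + r.2.1 * (U * z 1) ≤ r.2.2}))) := by
      ext z
      simp only [inP, mem_ofPred_eq, mem_inter_iff, mem_iInter]
    rw [e]
    refine (measurableSet_le measurable_const h1).inter
      ((measurableSet_le h1 measurable_const).inter (MeasurableSet.inter ?_ ?_))
    · exact MeasurableSet.biInter (List.finite_toSet _).countable
        (fun l _ => measurableSet_le measurable_const (by fun_prop))
    · exact MeasurableSet.biInter (List.finite_toSet _).countable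
        (fun l _ => measurableSet_le (by fun_prop) measurable_const)
  have e : setOf' U pcs = ⋃ P ∈ {P | P ∈ pcs}, {z : Plane | inP P (U * z 0) (U * z 1)} := by
    ext z
    simp only [setOf', mem_ofPred_eq, mem_iUnion, exists_prop]
  rw [e]
  exact MeasurableSet.biUnion (List.finite_toSet _).countable (fun P _ => hP P)

/-- area bound from the covering check -/
theorem volume_le {U : ℤ} (hU : 0 < U) {pcs : List Piece} (hpos : posAll pcs = true)
    {a : ℤ} (ha : pcs.all (fun P => nn (P.lo - a)) = true)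
    {S : List (ℤ × List (ℤ × ℤ × ℤ × ℤ))} (hS : S ≠ []) (h : covAll pcs a S = true) :
    volume (setOf' U pcs) ≤ ENNReal.ofReal ((tot2 (flat a S) : ℝ) / (2 * U ^ 2)) := by
  have hmp : MeasurePreserving (fun z : Plane => ((z 0, z 1) : ℝ × ℝ)) volume volume := by
    have h1 := (volume_preserving_finTwoArrow ℝ).comp (PiLp.volume_preserving_ofLp (Fin 2))
    exact h1
  have hsub : setOf' U pcs ⊆ (fun z : Plane => ((z 0, z 1) : ℝ × ℝ)) ⁻¹'
      {z : ℝ × ℝ | ∃ t ∈ flat a S, inT t.1 t.2.1 t.2.2 (U * z.1) (U * z.2)} := by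
    rintro z ⟨P, hP, hz⟩
    rw [List.all_eq_true] at ha
    have h1 := nn_iff.mp (ha P hP)
    have h2 : (a : ℝ) ≤ P.lo := by exact_mod_cast (by linarith : a ≤ P.lo)
    rcases cov_sound hpos hP hz S a h (h2.trans hz.1) with h3 | ⟨t, ht, ht2⟩
    · exact absurd h3.2 hS
    · exact ⟨t, ht, ht2⟩
  have hm : NullMeasurableSet
      {z : ℝ × ℝ | ∃ t ∈ flat a S, inT t.1 t.2.1 t.2.2 (U * z.1) (U * z.2)} volume := by
    apply MeasurableSet.nullMeasurableSet
    have e : {z : ℝ × ℝ | ∃ t ∈ flat a S, inT t.1 t.2.1 t.2.2 (U * z.1) (U * z.2)} =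
        ⋃ t ∈ {t | t ∈ flat a S}, {z : ℝ × ℝ | inT t.1 t.2.1 t.2.2 (U * z.1) (U * z.2)} := by
      ext z
      simp only [mem_ofPred_eq, mem_iUnion, exists_prop]
    rw [e]
    refine MeasurableSet.biUnion (List.finite_toSet _).countable (fun t _ => ?_)
    have e2 : {z : ℝ × ℝ | inT t.1 t.2.1 t.2.2 (U * z.1) (U * z.2)} =
        {z : ℝ × ℝ | (t.1 : ℝ) ≤ U * z.2} ∩ ({z : ℝ × ℝ | (U : ℝ) * z.2 ≤ t.2.1} ∩
        ({z : ℝ × ℝ | (t.2.2.1 : ℝ) * (t.2.1 - t.1) + (t.2.2.2.1 - t.2.2.1) * (U * z.2 - t.1) ≤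
          U * z.1 * (t.2.1 - t.1)} ∩
        {z : ℝ × ℝ | U * z.1 * (t.2.1 - t.1) ≤ (t.2.2.2.2.1 : ℝ) * (t.2.1 - t.1) +
          (t.2.2.2.2.2 - t.2.2.2.2.1) * (U * z.2 - t.1)})) := by
      ext z
      simp only [inT, mem_ofPred_eq, mem_inter_iff]
    rw [e2]
    exact (measurableSet_le (by fun_prop) (by fun_prop)).inter
      ((measurableSet_le (by fun_prop) (by fun_prop)).inter
        ((measurableSet_le (by fun_prop) (by fun_prop)).inter
          (measurableSet_le (by fun_prop) (by fun_prop))))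
  calc volume (setOf' U pcs) ≤ volume ((fun z : Plane => ((z 0, z 1) : ℝ × ℝ)) ⁻¹'
      {z : ℝ × ℝ | ∃ t ∈ flat a S, inT t.1 t.2.1 t.2.2 (U * z.1) (U * z.2)}) :=
        measure_mono hsub
    _ = volume {z : ℝ × ℝ | ∃ t ∈ flat a S, inT t.1 t.2.1 t.2.2 (U * z.1) (U * z.2)} :=
        hmp.measure_preimage hm
    _ ≤ _ := (vol_list hU _ (flat_ok S a h)).2

end Pool.Agent.LatCatch
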