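import Mathlib

/-! A verified checker for coverings of the plane by lattice translates of unions of convex
polygons, for all rotations of the lattice at once. -/

set_option autoImplicit false

namespace Pool.Agent.LatCatch

/-- an integer linear functional in the four variables `(om, c, s, Y)` -/
abbrev Fn := ℤ × ℤ × ℤ × ℤ

/-- nonnegativity test -/
def nn : ℤ → Bool
  | .ofNat _ => true
  | .negSucc _ => false

lemma nn_iff {a : ℤ} : nn a = true ↔ 0 ≤ a := by
  cases a with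
  | ofNat n => simp [nn]
  | negSucc n => simp [nn]

/-- integer evaluation -/
def fEval (f : Fn) (om c s Y : ℤ) : ℤ := f.1 * om + f.2.1 * c + f.2.2.1 * s + f.2.2.2 * Y

/-- real evaluation -/
noncomputable def rEval (f : Fn) (om c s Y : ℝ) : ℝ :=
  (f.1 : ℝ) * om + f.2.1 * c + f.2.2.1 * s + f.2.2.2 * Y

/-- a convex piece: `lo ≤ y ≤ hi`, `A x + B y ≥ C` for `(A, B, C)` in `L`,
`A x + B y ≤ C` for `(A, B, C)` in `R` -/
structure Piece where
  lo : ℤ
  hi : ℤ
  L : List (ℤ × ℤ × ℤ)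
  R : List (ℤ × ℤ × ℤ)

/-- the empty piece -/
def dflt : Piece := ⟨1, 0, [], []⟩

/-- membership in a piece -/
def inP (P : Piece) (x y : ℝ) : Prop :=
  (P.lo : ℝ) ≤ y ∧ y ≤ P.hi ∧ (∀ l ∈ P.L, (l.2.2 : ℝ) ≤ l.1 * x + l.2.1 * y) ∧
    ∀ r ∈ P.R, (r.1 : ℝ) * x + r.2.1 * y ≤ r.2.2

/-- vertical conditions -/
def vF (U : ℤ) (P : Piece) (m n : ℤ) : List Fn :=
  [(-P.lo, U * n, U * m, 1), (P.hi, -(U * n), -(U * m), -1)]

/-- left conditions at `x = -H` -/
def lF (U H : ℤ) (P : Piece) (m n : ℤ) : List Fn :=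
  P.L.map (fun l => (-(l.1 * H) - l.2.2, U * (l.1 * m + l.2.1 * n),
    U * (l.2.1 * m - l.1 * n), l.2.1))

/-- right conditions at `x = H` -/
def rF (U H : ℤ) (P : Piece) (m n : ℤ) : List Fn :=
  P.R.map (fun r => (r.2.2 - r.1 * H, -(U * (r.1 * m + r.2.1 * n)),
    U * (r.1 * n - r.2.1 * m), -r.2.1))

/-- overlap conditions for consecutive pieces -/
def pF (U : ℤ) (P : Piece) (m n : ℤ) (Q : Piece) (m' n' : ℤ) : List Fn :=
  P.R.flatMap (fun r => Q.L.map (fun l =>
    (l.1 * r.2.2 - r.1 * l.2.2,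
     U * (r.1 * (l.2.1 * n' + l.1 * m') - l.1 * (r.2.1 * n + r.1 * m)),
     U * (r.1 * (l.2.1 * m' - l.1 * n') - l.1 * (r.2.1 * m - r.1 * n)),
     r.1 * l.2.1 - l.1 * r.2.1)))

/-- conditions for the rest of a chain -/
def goF (U H : ℤ) (pcs : List Piece) : Piece → ℤ → ℤ → List (ℕ × ℤ × ℤ) → List Fn
  | P, m, n, [] => rF U H P m n
  | P, m, n, x :: rest =>
      vF U (pcs.getD x.1 dflt) x.2.1 x.2.2 ++ pF U P m n (pcs.getD x.1 dflt) x.2.1 x.2.2 ++
        goF U H pcs (pcs.getD x.1 dflt) x.2.1 x.2.2 rest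

/-- conditions for a chain -/
def chF (U H : ℤ) (pcs : List Piece) : List (ℕ × ℤ × ℤ) → List Fn
  | [] => [(-1, 0, 0, 0)]
  | x :: rest => vF U (pcs.getD x.1 dflt) x.2.1 x.2.2 ++ lF U H (pcs.getD x.1 dflt) x.2.1 x.2.2 ++
      goF U H pcs (pcs.getD x.1 dflt) x.2.1 x.2.2 rest

/-- all leading coefficients are positive -/
def posP (P : Piece) : Bool :=
  P.L.all (fun l => nn (l.1 - 1)) && P.R.all (fun r => nn (r.1 - 1))

/-- all leading coefficients are positive -/
def posAll (pcs : List Piece) : Bool := pcs.all posP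

lemma posP_L {P : Piece} (h : posP P = true) {l : ℤ × ℤ × ℤ} (hl : l ∈ P.L) : 0 < l.1 := by
  unfold posP at h
  rw [Bool.and_eq_true, List.all_eq_true, List.all_eq_true] at h
  have := nn_iff.mp (h.1 l hl)
  omega

lemma posP_R {P : Piece} (h : posP P = true) {r : ℤ × ℤ × ℤ} (hr : r ∈ P.R) : 0 < r.1 := by
  unfold posP at h
  rw [Bool.and_eq_true, List.all_eq_true, List.all_eq_true] at h
  have := nn_iff.mp (h.2 r hr)
  omega

lemma posP_dflt : posP dflt = true := rfl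

lemma posP_getD {pcs : List Piece} (h : posAll pcs = true) (i : ℕ) :
    posP (pcs.getD i dflt) = true := by
  unfold posAll at h
  rw [List.all_eq_true] at h
  by_cases hi : i < pcs.length
  · rw [List.getD_eq_getElem _ _ hi]; exact h _ (List.getElem_mem hi)
  · rw [List.getD_eq_default _ _ (by omega)]; exact posP_dflt

lemma not_inP_dflt (x y : ℝ) : ¬ inP dflt x y := by
  intro h
  have h1 := h.1
  have h2 := h.2.1
  simp only [dflt] at h1 h2
  norm_num at h1 h2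
  linarith

/-- a translate of some piece contains the point -/
def Fnd (U : ℤ) (pcs : List Piece) (c s x y : ℝ) : Prop :=
  ∃ P ∈ pcs, ∃ m n : ℤ, inP P (x + U * (m * c - n * s)) (y + U * (m * s + n * c))

lemma fnd_of_getD {U : ℤ} {pcs : List Piece} {c s x y : ℝ} {i : ℕ} {m n : ℤ}
    (h : inP (pcs.getD i dflt) (x + U * (m * c - n * s)) (y + U * (m * s + n * c))) :
    Fnd U pcs c s x y := by
  by_cases hi : i < pcs.length
  · rw [List.getD_eq_getElem _ _ hi] at h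
    exact ⟨_, List.getElem_mem hi, m, n, h⟩
  · rw [List.getD_eq_default _ _ (by omega)] at h
    exact absurd h (not_inP_dflt _ _)

lemma go_found {U H : ℤ} {pcs : List Piece} (hpos : posAll pcs = true) {c s x y : ℝ}
    (hx : x ≤ H) :
    ∀ (rest : List (ℕ × ℤ × ℤ)) (i : ℕ) (m n : ℤ),
      (∀ f ∈ goF U H pcs (pcs.getD i dflt) m n rest, 0 ≤ rEval f 1 c s y) →
      ((pcs.getD i dflt).lo : ℝ) ≤ y + U * (m * s + n * c) →
      y + U * (m * s + n * c) ≤ (pcs.getD i dflt).hi →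
      (∀ l ∈ (pcs.getD i dflt).L,
        (l.2.2 : ℝ) ≤ l.1 * (x + U * (m * c - n * s)) + l.2.1 * (y + U * (m * s + n * c))) →
      Fnd U pcs c s x y := by
  intro rest
  induction rest with
  | nil =>
    intro i m n hf h1 h2 h3
    refine fnd_of_getD (i := i) (m := m) (n := n) ⟨h1, h2, h3, ?_⟩
    intro r hr
    have hr0 : (0 : ℝ) < r.1 := by exact_mod_cast posP_R (posP_getD hpos i) hr
    have h4 := hf _ (by
      unfold goF rF
      exact List.mem_map.mpr ⟨r, hr, rfl⟩)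
    unfold rEval at h4
    push_cast at h4
    nlinarith
  | cons z rest ih =>
    intro i m n hf h1 h2 h3
    by_cases hR : ∀ r ∈ (pcs.getD i dflt).R,
        (r.1 : ℝ) * (x + U * (m * c - n * s)) + r.2.1 * (y + U * (m * s + n * c)) ≤ r.2.2
    · exact fnd_of_getD (i := i) (m := m) (n := n) ⟨h1, h2, h3, hR⟩
    · push Not at hR
      obtain ⟨r, hr, hr2⟩ := hR
      have hr0 : (0 : ℝ) < r.1 := by exact_mod_cast posP_R (posP_getD hpos i) hr
      unfold goF at hf
      apply ih z.1 z.2.1 z.2.2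
      · intro f hf'
        exact hf f (List.mem_append_right _ hf')
      · have h4 := hf (-(pcs.getD z.1 dflt).lo, U * z.2.2, U * z.2.1, 1) (by
          apply List.mem_append_left; apply List.mem_append_left; unfold vF; simp)
        unfold rEval at h4
        push_cast at h4
        linarith
      · have h4 := hf ((pcs.getD z.1 dflt).hi, -(U * z.2.2), -(U * z.2.1), -1) (by
          apply List.mem_append_left; apply List.mem_append_left; unfold vF; simp)
        unfold rEval at h4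
        push_cast at h4
        linarith
      · intro l hl
        have hl0 : (0 : ℝ) < l.1 := by exact_mod_cast posP_L (posP_getD hpos z.1) hl
        have h4 := hf _ (by
          apply List.mem_append_left; apply List.mem_append_right; unfold pF
          exact List.mem_flatMap.mpr ⟨r, hr, List.mem_map.mpr ⟨l, hl, rfl⟩⟩)
        unfold rEval at h4
        push_cast at h4
        have h5 : 0 < (r.1 : ℝ) * (x + U * (m * c - n * s)) + r.2.1 * (y + U * (m * s + n * c))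
            - r.2.2 := by linarith
        have h6 := mul_pos hl0 h5
        by_contra hcon
        push Not at hcon
        have h7 : 0 < (l.2.2 : ℝ) - (l.1 * (x + U * (z.2.1 * c - z.2.2 * s)) +
          l.2.1 * (y + U * (z.2.1 * s + z.2.2 * c))) := by linarith
        have h8 := mul_pos hr0 h7
        nlinarith

lemma ch_found {U H : ℤ} {pcs : List Piece} (hpos : posAll pcs = true) {c s x y : ℝ}
    (hx0 : -(H : ℝ) ≤ x) (hx : x ≤ H) (ch : List (ℕ × ℤ × ℤ))
    (hf : ∀ f ∈ chF U H pcs ch, 0 ≤ rEval f 1 c s y) : Fnd U pcs c s x y := by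
  cases ch with
  | nil =>
    have h := hf (-1, 0, 0, 0) (by unfold chF; simp)
    unfold rEval at h
    norm_num at h
  | cons z rest =>
    unfold chF at hf
    apply go_found hpos hx rest z.1 z.2.1 z.2.2
    · intro f hf'
      exact hf f (List.mem_append_right _ hf')
    · have h4 := hf (-(pcs.getD z.1 dflt).lo, U * z.2.2, U * z.2.1, 1) (by
        apply List.mem_append_left; apply List.mem_append_left; unfold vF; simp)
      unfold rEval at h4
      push_cast at h4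
      linarith
    · have h4 := hf ((pcs.getD z.1 dflt).hi, -(U * z.2.2), -(U * z.2.1), -1) (by
        apply List.mem_append_left; apply List.mem_append_left; unfold vF; simp)
      unfold rEval at h4
      push_cast at h4
      linarith
    · intro l hl
      have hl0 : (0 : ℝ) < l.1 := by exact_mod_cast posP_L (posP_getD hpos z.1) hl
      have h4 := hf _ (by
        apply List.mem_append_left; apply List.mem_append_right; unfold lF
        exact List.mem_map.mpr ⟨l, hl, rfl⟩)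
      unfold rEval at h4
      push_cast at h4
      nlinarith

/-! ### slabs and intervals -/

/-- check the functionals at the three control vectors -/
def slabOK (fs : List Fn) (w0 w1 w2 : ℤ × ℤ × ℤ) (Y Y' : ℤ × ℤ × ℤ) : Bool :=
  fs.all (fun f =>
    nn (fEval f w0.1 w0.2.1 w0.2.2 Y.1) && nn (fEval f w1.1 w1.2.1 w1.2.2 Y.2.1) &&
    nn (fEval f w2.1 w2.2.1 w2.2.2 Y.2.2) &&
    nn (fEval f w0.1 w0.2.1 w0.2.2 Y'.1) && nn (fEval f w1.1 w1.2.1 w1.2.2 Y'.2.1) &&
    nn (fEval f w2.1 w2.2.1 w2.2.2 Y'.2.2))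

/-- check a stack of slabs -/
def slabs (U H Y0 : ℤ) (pcs : List Piece) (w0 w1 w2 : ℤ × ℤ × ℤ) :
    ℤ × ℤ × ℤ → List (List (ℕ × ℤ × ℤ) × ℤ × ℤ × ℤ) → Bool
  | Y, [] => nn (Y.1 - (Y0 * w0.1 + U * (w0.2.1 + w0.2.2))) &&
      nn (Y.2.1 - (Y0 * w1.1 + U * (w1.2.1 + w1.2.2))) &&
      nn (Y.2.2 - (Y0 * w2.1 + U * (w2.2.1 + w2.2.2)))
  | Y, z :: rest => slabOK (chF U H pcs z.1) w0 w1 w2 Y z.2 && slabs U H Y0 pcs w0 w1 w2 z.2 rest

/-- control vectors -/
def W (q p p' : ℤ) : ℤ × ℤ × ℤ := (q * q + p * p', q * q - p * p', (p + p') * q)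

/-- check an interval `[p0, p1]` of values of `q * s / (1 + c)` -/
def intOK (U H Y0 q : ℤ) (pcs : List Piece) (p0 p1 : ℤ)
    (sl : List (List (ℕ × ℤ × ℤ) × ℤ × ℤ × ℤ)) : Bool :=
  slabs U H Y0 pcs (W q p0 p0) (W q p0 p1) (W q p1 p1)
    (Y0 * (W q p0 p0).1, Y0 * (W q p0 p1).1, Y0 * (W q p1 p1).1) sl

/-- check a list of consecutive intervals, ending at or after `q` -/
def allOK (U H Y0 q : ℤ) (pcs : List Piece) :
    ℤ → List (ℤ × List (List (ℕ × ℤ × ℤ) × ℤ × ℤ × ℤ)) → Bool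
  | p, [] => nn (p - q)
  | p, z :: rest => nn (z.1 - p - 1) && intOK U H Y0 q pcs p z.1 z.2 &&
      allOK U H Y0 q pcs z.1 rest

/-- the functional at a combination of control vectors -/
lemma rEval_comb (f : Fn) (a0 a1 a2 : ℝ) (w0 w1 w2 Y : ℤ × ℤ × ℤ) :
    rEval f (a0 * w0.1 + a1 * w1.1 + a2 * w2.1) (a0 * w0.2.1 + a1 * w1.2.1 + a2 * w2.2.1)
      (a0 * w0.2.2 + a1 * w1.2.2 + a2 * w2.2.2) (a0 * Y.1 + a1 * Y.2.1 + a2 * Y.2.2) =
    a0 * (fEval f w0.1 w0.2.1 w0.2.2 Y.1 : ℤ) + a1 * (fEval f w1.1 w1.2.1 w1.2.2 Y.2.1 : ℤ) +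
      a2 * (fEval f w2.1 w2.2.1 w2.2.2 Y.2.2 : ℤ) := by
  unfold rEval fEval
  push_cast
  ring

lemma rEval_smul (f : Fn) (k om c s Y : ℝ) :
    rEval f (k * om) (k * c) (k * s) (k * Y) = k * rEval f om c s Y := by
  unfold rEval; ring

lemma slabs_found {U H Y0 : ℤ} {pcs : List Piece} (hpos : posAll pcs = true)
    {w0 w1 w2 : ℤ × ℤ × ℤ} {c s x y k a0 a1 a2 : ℝ} (hk : 0 < k) (h0 : 0 ≤ a0) (h1 : 0 ≤ a1)
    (h2 : 0 ≤ a2) (hom : k = a0 * w0.1 + a1 * w1.1 + a2 * w2.1)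
    (hc : k * c = a0 * w0.2.1 + a1 * w1.2.1 + a2 * w2.2.1)
    (hs : k * s = a0 * w0.2.2 + a1 * w1.2.2 + a2 * w2.2.2)
    (hx0 : -(H : ℝ) ≤ x) (hx : x ≤ H) (hy : y ≤ Y0 + U * (c + s)) :
    ∀ (sl : List (List (ℕ × ℤ × ℤ) × ℤ × ℤ × ℤ)) (Y : ℤ × ℤ × ℤ),
      slabs U H Y0 pcs w0 w1 w2 Y sl = true →
      a0 * Y.1 + a1 * Y.2.1 + a2 * Y.2.2 ≤ k * y →
      (sl = [] ∧ k * y ≤ a0 * Y.1 + a1 * Y.2.1 + a2 * Y.2.2) ∨ Fnd U pcs c s x y := by
  intro sl
  induction sl with
  | nil =>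
    intro Y hsl hY
    left
    refine ⟨rfl, ?_⟩
    unfold slabs at hsl
    rw [Bool.and_eq_true, Bool.and_eq_true, nn_iff, nn_iff, nn_iff] at hsl
    obtain ⟨⟨e0, e1⟩, e2⟩ := hsl
    have e0' : (0 : ℝ) ≤ Y.1 - (Y0 * w0.1 + U * (w0.2.1 + w0.2.2)) := by exact_mod_cast e0
    have e1' : (0 : ℝ) ≤ Y.2.1 - (Y0 * w1.1 + U * (w1.2.1 + w1.2.2)) := by exact_mod_cast e1
    have e2' : (0 : ℝ) ≤ Y.2.2 - (Y0 * w2.1 + U * (w2.2.1 + w2.2.2)) := by exact_mod_cast e2
    have g0 := mul_nonneg h0 e0'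
    have g1 := mul_nonneg h1 e1'
    have g2 := mul_nonneg h2 e2'
    have g3 : k * y ≤ Y0 * k + U * (k * c + k * s) := by nlinarith
    rw [hc, hs] at g3
    nth_rewrite 2 [hom] at g3
    nlinarith
  | cons z rest ih =>
    intro Y hsl hY
    right
    unfold slabs at hsl
    rw [Bool.and_eq_true] at hsl
    obtain ⟨hs1, hs2⟩ := hsl
    by_cases hcase : k * y ≤ a0 * z.2.1 + a1 * z.2.2.1 + a2 * z.2.2.2
    · apply ch_found hpos hx0 hx z.1
      intro f hf
      unfold slabOK at hs1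
      rw [List.all_eq_true] at hs1
      have hff := hs1 f hf
      simp only [Bool.and_eq_true, nn_iff] at hff
      obtain ⟨⟨⟨⟨⟨b0, b1⟩, b2⟩, t0⟩, t1⟩, t2⟩ := hff
      set ya := a0 * (Y.1 : ℝ) + a1 * Y.2.1 + a2 * Y.2.2 with hya
      set yb := a0 * (z.2.1 : ℝ) + a1 * z.2.2.1 + a2 * z.2.2.2 with hyb
      have ea : 0 ≤ rEval f k (k * c) (k * s) ya := by
        rw [hc, hs, hya, hom, rEval_comb]
        have b0' : (0 : ℝ) ≤ (fEval f w0.1 w0.2.1 w0.2.2 Y.1 : ℤ) := by exact_mod_cast b0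
        have b1' : (0 : ℝ) ≤ (fEval f w1.1 w1.2.1 w1.2.2 Y.2.1 : ℤ) := by exact_mod_cast b1
        have b2' : (0 : ℝ) ≤ (fEval f w2.1 w2.2.1 w2.2.2 Y.2.2 : ℤ) := by exact_mod_cast b2
        positivity
      have eb : 0 ≤ rEval f k (k * c) (k * s) yb := by
        rw [hc, hs, hyb, hom, rEval_comb]
        have b0' : (0 : ℝ) ≤ (fEval f w0.1 w0.2.1 w0.2.2 z.2.1 : ℤ) := by exact_mod_cast t0
        have b1' : (0 : ℝ) ≤ (fEval f w1.1 w1.2.1 w1.2.2 z.2.2.1 : ℤ) := by exact_mod_cast t1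
        have b2' : (0 : ℝ) ≤ (fEval f w2.1 w2.2.1 w2.2.2 z.2.2.2 : ℤ) := by exact_mod_cast t2
        positivity
      have ey : 0 ≤ rEval f k (k * c) (k * s) (k * y) := by
        unfold rEval at ea eb ⊢
        rcases le_total 0 ((f.2.2.2 : ℤ) : ℝ) with hd | hd
        · nlinarith [mul_le_mul_of_nonneg_left hY hd]
        · nlinarith [mul_le_mul_of_nonpos_left hcase hd]
      have := rEval_smul f k 1 c s y
      rw [mul_one] at this
      rw [this] at ey
      exact nonneg_of_mul_nonneg_right ey hk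
    · push Not at hcase
      rcases ih z.2 hs2 hcase.le with h | h
      · exact absurd h.2 (not_le.mpr hcase)
      · exact h

lemma int_found {U H Y0 q : ℤ} {pcs : List Piece} (hpos : posAll pcs = true) (hU : 0 < U)
    (hq : 0 < q)
    {p0 p1 : ℤ} (hp : p0 < p1) {sl : List (List (ℕ × ℤ × ℤ) × ℤ × ℤ × ℤ)}
    (hsl : intOK U H Y0 q pcs p0 p1 sl = true) {c s x y : ℝ} (hcs : c ^ 2 + s ^ 2 = 1)
    (hc0 : 0 ≤ c) (hs0 : 0 ≤ s)
    (h1 : p0 * (1 + c) ≤ q * s) (h2 : q * s ≤ p1 * (1 + c))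
    (hx0 : -(H : ℝ) ≤ x) (hx : x ≤ H) (hy0 : (Y0 : ℝ) ≤ y) (hy : y ≤ Y0 + U * (c + s)) :
    Fnd U pcs c s x y := by
  set u := 1 + c with hu
  have hu0 : 0 < u := by linarith
  set a := q * s - p0 * u with ha
  set b := p1 * u - q * s with hb
  have ha0 : 0 ≤ a := by rw [ha]; linarith
  have hb0 : 0 ≤ b := by rw [hb]; linarith
  have hpp : (0 : ℝ) < p1 - p0 := by
    have : (p0 : ℝ) < p1 := by exact_mod_cast hp
    linarith
  have hq0 : (0 : ℝ) < q := by exact_mod_cast hq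
  set k := ((p1 : ℝ) - p0) ^ 2 * (2 * u) * q ^ 2 with hk
  have hk0 : 0 < k := by positivity
  have hus : u ^ 2 + s ^ 2 = 2 * u := by rw [hu]; linear_combination hcs
  have huc : u ^ 2 - s ^ 2 = 2 * u * c := by rw [hu]; linear_combination -hcs
  have key := slabs_found (U := U) (H := H) (Y0 := Y0) hpos (w0 := W q p0 p0) (w1 := W q p0 p1)
    (w2 := W q p1 p1) (c := c) (s := s) (x := x) (y := y) (k := k) (a0 := b ^ 2)
    (a1 := 2 * a * b) (a2 := a ^ 2) hk0 (by positivity) (by positivity) (by positivity)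
    (by
      unfold W
      push_cast
      rw [hk, ha, hb]
      linear_combination (-((p1 : ℝ) - p0) ^ 2 * q ^ 2) * hus)
    (by
      unfold W
      push_cast
      rw [hk, ha, hb]
      linear_combination (-((p1 : ℝ) - p0) ^ 2 * q ^ 2) * huc)
    (by
      unfold W
      push_cast
      rw [hk, ha, hb]
      ring)
    hx0 hx hy sl _ hsl
    (by
      have hom : k = b ^ 2 * ((W q p0 p0).1 : ℤ) + 2 * a * b * ((W q p0 p1).1 : ℤ) +
          a ^ 2 * ((W q p1 p1).1 : ℤ) := by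
        unfold W
        push_cast
        rw [hk, ha, hb]
        linear_combination (-((p1 : ℝ) - p0) ^ 2 * q ^ 2) * hus
      push_cast
      have : k * (Y0 : ℝ) ≤ k * y := mul_le_mul_of_nonneg_left hy0 hk0.le
      nth_rewrite 1 [hom] at this
      push_cast at this
      nlinarith)
  rcases key with h | h
  · obtain ⟨hnil, hle⟩ := h
    subst hnil
    -- then the final check contradicts positivity of `c + s`
    exfalso
    unfold intOK slabs at hsl
    rw [Bool.and_eq_true, Bool.and_eq_true, nn_iff, nn_iff, nn_iff] at hsl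
    obtain ⟨⟨e0, e1⟩, e2⟩ := hsl
    have e0' : (U : ℝ) * (((W q p0 p0).2.1 : ℤ) + ((W q p0 p0).2.2 : ℤ)) ≤ 0 := by
      have : U * ((W q p0 p0).2.1 + (W q p0 p0).2.2) ≤ 0 := by linarith
      exact_mod_cast this
    have e1' : (U : ℝ) * (((W q p0 p1).2.1 : ℤ) + ((W q p0 p1).2.2 : ℤ)) ≤ 0 := by
      have : U * ((W q p0 p1).2.1 + (W q p0 p1).2.2) ≤ 0 := by linarith
      exact_mod_cast this
    have e2' : (U : ℝ) * (((W q p1 p1).2.1 : ℤ) + ((W q p1 p1).2.2 : ℤ)) ≤ 0 := by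
      have : U * ((W q p1 p1).2.1 + (W q p1 p1).2.2) ≤ 0 := by linarith
      exact_mod_cast this
    have hU0 : (0 : ℝ) < U := by exact_mod_cast hU
    have g0 := mul_nonpos_of_nonneg_of_nonpos (sq_nonneg b) e0'
    have g1 := mul_nonpos_of_nonneg_of_nonpos (by positivity : 0 ≤ 2 * a * b) e1'
    have g2 := mul_nonpos_of_nonneg_of_nonpos (sq_nonneg a) e2'
    have hcsk : k * (U * (c + s)) = b ^ 2 * (U * (((W q p0 p0).2.1 : ℤ) + ((W q p0 p0).2.2 : ℤ)))
        + 2 * a * b * (U * (((W q p0 p1).2.1 : ℤ) + ((W q p0 p1).2.2 : ℤ)))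
        + a ^ 2 * (U * (((W q p1 p1).2.1 : ℤ) + ((W q p1 p1).2.2 : ℤ))) := by
      unfold W
      push_cast
      rw [hk, ha, hb]
      linear_combination (-((p1 : ℝ) - p0) ^ 2 * q ^ 2 * U) * huc
    have hpos2 : 0 < k * (U * (c + s)) := by
      have : 0 < c + s := by nlinarith
      positivity
    linarith
  · exact h

lemma all_found {U H Y0 q : ℤ} {pcs : List Piece} (hpos : posAll pcs = true) (hU : 0 < U)
    (hq : 0 < q) {c s x y : ℝ} (hcs : c ^ 2 + s ^ 2 = 1) (hc0 : 0 ≤ c) (hs0 : 0 ≤ s)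
    (hx0 : -(H : ℝ) ≤ x) (hx : x ≤ H) (hy0 : (Y0 : ℝ) ≤ y) (hy : y ≤ Y0 + U * (c + s)) :
    ∀ (D : List (ℤ × List (List (ℕ × ℤ × ℤ) × ℤ × ℤ × ℤ))) (p : ℤ),
      allOK U H Y0 q pcs p D = true → p * (1 + c) ≤ q * s →
      (D = [] ∧ q * s ≤ p * (1 + c)) ∨ Fnd U pcs c s x y := by
  intro D
  induction D with
  | nil =>
    intro p hD hp
    left
    refine ⟨rfl, ?_⟩
    unfold allOK at hD
    rw [nn_iff] at hD
    have hpq : (q : ℝ) ≤ p := by
      have : q ≤ p := by linarith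
      exact_mod_cast this
    have hq0 : (0 : ℝ) < q := by exact_mod_cast hq
    have hs1 : s ≤ 1 + c := by nlinarith
    have : (q : ℝ) * s ≤ q * (1 + c) := mul_le_mul_of_nonneg_left hs1 hq0.le
    have h2 : (q : ℝ) * (1 + c) ≤ p * (1 + c) := mul_le_mul_of_nonneg_right hpq (by linarith)
    linarith
  | cons z rest ih =>
    intro p hD hp
    right
    unfold allOK at hD
    rw [Bool.and_eq_true, Bool.and_eq_true, nn_iff] at hD
    obtain ⟨⟨d1, d2⟩, d3⟩ := hD
    by_cases hcase : (q : ℝ) * s ≤ z.1 * (1 + c)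
    · exact int_found hpos hU hq (by linarith) d2 hcs hc0 hs0 hp hcase hx0 hx hy0 hy
    · push Not at hcase
      rcases ih z.1 d3 hcase.le with h | h
      · exact absurd h.2 (not_le.mpr hcase)
      · exact h

/-- soundness of the checker for a point in the box -/
theorem check_sound {U H Y0 q : ℤ} {pcs : List Piece} (hpos : posAll pcs = true) (hU : 0 < U)
    (hq : 0 < q) {D : List (ℤ × List (List (ℕ × ℤ × ℤ) × ℤ × ℤ × ℤ))}
    (hD : allOK U H Y0 q pcs 0 D = true)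
    {c s x y : ℝ} (hcs : c ^ 2 + s ^ 2 = 1) (hc0 : 0 ≤ c) (hs0 : 0 ≤ s)
    (hx0 : -(H : ℝ) ≤ x) (hx : x ≤ H) (hy0 : (Y0 : ℝ) ≤ y) (hy : y ≤ Y0 + U * (c + s)) :
    Fnd U pcs c s x y := by
  have hq0 : (0 : ℝ) < q := by exact_mod_cast hq
  rcases all_found hpos hU hq hcs hc0 hs0 hx0 hx hy0 hy D 0 hD (by
    push_cast; rw [zero_mul]; positivity) with h | h
  · obtain ⟨h1, _⟩ := h
    subst h1
    unfold allOK at hD
    rw [nn_iff] at hD
    omega
  · exact h

end Pool.Agent.LatCatch
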