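import Pool.Agent.Lib_MP_02aa3f_co.Checker

/-! Reduction of the plane to a box, and the classification of plane isometries. -/

set_option autoImplicit false

namespace Pool.Agent.LatCatch

lemma strip_exists {c s : ℝ} (hcs : c ^ 2 + s ^ 2 = 1) (hc0 : 0 ≤ c) (hs0 : 0 ≤ s) {H : ℝ}
    (hH : 0 < H) (x : ℝ) :
    ∃ m n : ℤ, -H ≤ x + 2 * H * (m * c - n * s) ∧ x + 2 * H * (m * c - n * s) ≤ H ∧
      0 ≤ m * s + n * c := by
  have hc1 : c ≤ 1 := by nlinarith
  have hs1 : s ≤ 1 := by nlinarith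
  rcases lt_or_ge H x with hx | hx
  · rcases eq_or_lt_of_le hs0 with hs | hs
    · -- `s = 0`, `c = 1`
      have hc : c = 1 := by
        rw [← hs] at hcs
        nlinarith
      refine ⟨-⌈(x - H) / (2 * H)⌉, 0, ?_, ?_, ?_⟩
      · have := Int.ceil_lt_add_one ((x - H) / (2 * H))
        have h2 : ((⌈(x - H) / (2 * H)⌉ : ℤ) : ℝ) * (2 * H) < (x - H) + 2 * H := by
          have h3 := mul_lt_mul_of_pos_right this (by linarith : 0 < 2 * H)
          rwa [add_mul, div_mul_cancel₀ _ (by linarith : (2 * H) ≠ 0), one_mul] at h3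
        push_cast
        rw [hc, ← hs]
        nlinarith
      · have := Int.le_ceil ((x - H) / (2 * H))
        rw [div_le_iff₀ (by linarith)] at this
        push_cast
        rw [hc, ← hs]
        nlinarith
      · rw [← hs]; simp
    · have hk : 0 < 2 * H * s := by positivity
      have hxp : 0 < (x - H) / (2 * H * s) := div_pos (by linarith) hk
      refine ⟨0, ⌈(x - H) / (2 * H * s)⌉, ?_, ?_, ?_⟩
      · have := Int.ceil_lt_add_one ((x - H) / (2 * H * s))
        have h2 : ((⌈(x - H) / (2 * H * s)⌉ : ℤ) : ℝ) * (2 * H * s) < (x - H) + 2 * H * s := by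
          have h3 := mul_lt_mul_of_pos_right this hk
          rwa [add_mul, div_mul_cancel₀ _ hk.ne', one_mul] at h3
        push_cast
        nlinarith
      · have := Int.le_ceil ((x - H) / (2 * H * s))
        rw [div_le_iff₀ hk] at this
        push_cast
        nlinarith
      · have h4 : (0 : ℝ) ≤ ((⌈(x - H) / (2 * H * s)⌉ : ℤ) : ℝ) :=
          hxp.le.trans (Int.le_ceil _)
        push_cast
        nlinarith [mul_nonneg h4 hc0]
  · rcases lt_or_ge x (-H) with hx2 | hx2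
    · rcases eq_or_lt_of_le hc0 with hc | hc
      · have hs : s = 1 := by
          rw [← hc] at hcs
          nlinarith
        refine ⟨0, -⌈(-H - x) / (2 * H)⌉, ?_, ?_, ?_⟩
        · have := Int.le_ceil ((-H - x) / (2 * H))
          rw [div_le_iff₀ (by linarith)] at this
          push_cast
          rw [hs, ← hc]
          nlinarith
        · have := Int.ceil_lt_add_one ((-H - x) / (2 * H))
          have h2 : ((⌈(-H - x) / (2 * H)⌉ : ℤ) : ℝ) * (2 * H) < (-H - x) + 2 * H := by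
            have h3 := mul_lt_mul_of_pos_right this (by linarith : 0 < 2 * H)
            rwa [add_mul, div_mul_cancel₀ _ (by linarith : (2 * H) ≠ 0), one_mul] at h3
          push_cast
          rw [hs, ← hc]
          nlinarith
        · rw [← hc]; simp
      · have hk : 0 < 2 * H * c := by positivity
        have hxp : 0 < (-H - x) / (2 * H * c) := div_pos (by linarith) hk
        refine ⟨⌈(-H - x) / (2 * H * c)⌉, 0, ?_, ?_, ?_⟩
        · have := Int.le_ceil ((-H - x) / (2 * H * c))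
          rw [div_le_iff₀ hk] at this
          push_cast
          nlinarith
        · have := Int.ceil_lt_add_one ((-H - x) / (2 * H * c))
          have h2 : ((⌈(-H - x) / (2 * H * c)⌉ : ℤ) : ℝ) * (2 * H * c) < (-H - x) + 2 * H * c := by
            have h3 := mul_lt_mul_of_pos_right this hk
            rwa [add_mul, div_mul_cancel₀ _ hk.ne', one_mul] at h3
          push_cast
          nlinarith
        · have h4 : (0 : ℝ) ≤ ((⌈(-H - x) / (2 * H * c)⌉ : ℤ) : ℝ) :=
            hxp.le.trans (Int.le_ceil _)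
          push_cast
          nlinarith [mul_nonneg h4 hs0]
    · refine ⟨0, 0, ?_, ?_, ?_⟩ <;> push_cast <;> nlinarith

lemma box_exists {c s : ℝ} (hcs : c ^ 2 + s ^ 2 = 1) (hc0 : 0 ≤ c) (hs0 : 0 ≤ s) {H : ℝ}
    (hH : 0 < H) (Y0 x y : ℝ) :
    ∃ m n : ℤ, -H ≤ x + 2 * H * (m * c - n * s) ∧ x + 2 * H * (m * c - n * s) ≤ H ∧
      Y0 ≤ y + 2 * H * (m * s + n * c) ∧ y + 2 * H * (m * s + n * c) ≤ Y0 + 2 * H * (c + s) := by
  have hc1 : c ≤ 1 := by nlinarith
  have hs1 : s ≤ 1 := by nlinarith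
  have hcs1 : 1 ≤ c + s := by nlinarith
  -- existence with `y' ≥ Y0`
  let P : ℤ → Prop := fun k => ∃ m n : ℤ, m + n = k ∧ -H ≤ x + 2 * H * (m * c - n * s) ∧
    x + 2 * H * (m * c - n * s) ≤ H ∧ Y0 ≤ y + 2 * H * (m * s + n * c)
  have hex : ∃ k, P k := by
    obtain ⟨N, hN⟩ := exists_nat_ge ((Y0 - y) / (2 * H))
    rw [div_le_iff₀ (by linarith)] at hN
    obtain ⟨m, n, h1, h2, h3⟩ := strip_exists hcs hc0 hs0 hH (x + 2 * H * (N * c - N * s))
    refine ⟨_, m + N, n + N, rfl, ?_, ?_, ?_⟩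
    · push_cast
      have e : x + 2 * H * (((m : ℝ) + N) * c - (n + N) * s) =
        x + 2 * H * (N * c - N * s) + 2 * H * (m * c - n * s) := by ring
      rw [e]; exact h1
    · push_cast
      have e : x + 2 * H * (((m : ℝ) + N) * c - (n + N) * s) =
        x + 2 * H * (N * c - N * s) + 2 * H * (m * c - n * s) := by ring
      rw [e]; exact h2
    · push_cast
      have e : y + 2 * H * (((m : ℝ) + N) * s + (n + N) * c) =
        y + 2 * H * (N * (c + s)) + 2 * H * (m * s + n * c) := by ring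
      rw [e]
      have h5 : (N : ℝ) ≤ N * (c + s) := le_mul_of_one_le_right (Nat.cast_nonneg _) hcs1
      have h6 : 2 * H * (N : ℝ) ≤ 2 * H * (N * (c + s)) :=
        mul_le_mul_of_nonneg_left h5 (by linarith)
      have h7 : 0 ≤ 2 * H * ((m : ℝ) * s + n * c) := mul_nonneg (by linarith) h3
      nlinarith
  have hbd : ∃ b : ℤ, ∀ z : ℤ, P z → b ≤ z := by
    set B := (H + |x| + |Y0 - y|) / H with hB
    refine ⟨-⌈B⌉, ?_⟩
    rintro z ⟨m, n, hmn, h1, h2, h3⟩
    set X := (m : ℝ) * c - n * s with hX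
    set Y := (m : ℝ) * s + n * c with hY
    have hm : (m : ℝ) = c * X + s * Y := by
      rw [hX, hY]; linear_combination (-(m : ℝ)) * hcs
    have hn : (n : ℝ) = c * Y - s * X := by
      rw [hX, hY]; linear_combination (-(n : ℝ)) * hcs
    have hB0 : 0 < H := hH
    have e1 : -(H + |x|) ≤ 2 * H * X := by
      have := le_abs_self x; linarith
    have e2 : 2 * H * X ≤ H + |x| := by
      have := neg_abs_le x; linarith
    have e3 : -|Y0 - y| ≤ 2 * H * Y := by
      have := neg_abs_le (Y0 - y); linarith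
    have e4 : -(H + |x| + |Y0 - y|) * 2 ≤ 2 * H * ((m : ℝ) + n) := by
      have : 2 * H * ((m : ℝ) + n) = (c - s) * (2 * H * X) + (c + s) * (2 * H * Y) := by
        rw [hm, hn]; ring
      rw [this]
      have a1 : -(H + |x|) ≤ (c - s) * (2 * H * X) := by
        have hA : 0 ≤ H + |x| := by positivity
        have hab : |(c - s) * (2 * H * X)| ≤ H + |x| := by
          rw [abs_mul]
          have b1 : |c - s| ≤ 1 := abs_le.mpr ⟨by linarith, by linarith⟩
          have b2 : |2 * H * X| ≤ H + |x| := abs_le.mpr ⟨e1, e2⟩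
          calc |c - s| * |2 * H * X| ≤ 1 * (H + |x|) :=
                mul_le_mul b1 b2 (abs_nonneg _) zero_le_one
            _ = _ := one_mul _
        exact (abs_le.mp hab).1
      have a2 : -(2 * |Y0 - y|) ≤ (c + s) * (2 * H * Y) := by
        have hA : 0 ≤ |Y0 - y| := abs_nonneg _
        nlinarith [mul_le_mul_of_nonneg_left e3 (by linarith : 0 ≤ c + s)]
      have hA2 : 0 ≤ H + |x| := by positivity
      linarith
    have e5 : -B ≤ (m : ℝ) + n := by
      rw [hB, neg_le_iff_add_nonneg, ← sub_neg_eq_add, sub_nonneg]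
      rw [← mul_le_mul_iff_right₀ (by linarith : 0 < 2 * H)]
      have : 2 * H * ((H + |x| + |Y0 - y|) / H) = (H + |x| + |Y0 - y|) * 2 := by
        field_simp
      rw [mul_neg, this]
      linarith
    have e6 : (-⌈B⌉ : ℝ) ≤ -B := neg_le_neg (Int.le_ceil B)
    have e7 : ((-⌈B⌉ : ℤ) : ℝ) ≤ ((m + n : ℤ) : ℝ) := by push_cast; linarith
    rw [← hmn]
    exact_mod_cast e7
  obtain ⟨k, ⟨m, n, hmn, h1, h2, h3⟩, hmin⟩ := Int.exists_least_of_bdd hbd hex
  refine ⟨m, n, h1, h2, h3, ?_⟩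
  by_contra hcon
  push Not at hcon
  have hHs : 0 ≤ 2 * H * s := by positivity
  have hHc : 0 ≤ 2 * H * c := by positivity
  rcases le_or_gt (x + 2 * H * (m * c - n * s) + 2 * H * s) H with ha | ha
  · have := hmin (m + n - 1) ⟨m, n - 1, by ring, by push_cast; linarith, by push_cast; linarith,
      by push_cast; nlinarith⟩
    omega
  · rcases le_or_gt (-H) (x + 2 * H * (m * c - n * s) - 2 * H * c) with hb | hb
    · have := hmin (m + n - 1) ⟨m - 1, n, by ring, by push_cast; linarith,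
        by push_cast; linarith, by push_cast; nlinarith⟩
      omega
    · have hcH : 2 * H * c ≤ 2 * H := by nlinarith
      have hsH : 2 * H * s ≤ 2 * H := by nlinarith
      have := hmin (m + n - 2) ⟨m - 1, n - 1, by ring, by push_cast; linarith,
        by push_cast; linarith, by push_cast; nlinarith⟩
      omega

/-- soundness for all points, `c, s ≥ 0` -/
theorem check_plane_nonneg {H Y0 q : ℤ} {pcs : List Piece} (hpos : posAll pcs = true) (hH : 0 < H)
    (hq : 0 < q) {D : List (ℤ × List (List (ℕ × ℤ × ℤ) × ℤ × ℤ × ℤ))}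
    (hD : allOK (2 * H) H Y0 q pcs 0 D = true)
    {c s : ℝ} (hcs : c ^ 2 + s ^ 2 = 1) (hc0 : 0 ≤ c) (hs0 : 0 ≤ s) (x y : ℝ) :
    Fnd (2 * H) pcs c s x y := by
  have hH0 : (0 : ℝ) < H := by exact_mod_cast hH
  obtain ⟨m, n, h1, h2, h3, h4⟩ := box_exists hcs hc0 hs0 hH0 (Y0 : ℝ) x y
  obtain ⟨P, hP, m', n', h⟩ := check_sound hpos (by omega : 0 < 2 * H) hq hD hcs hc0 hs0
    (x := x + 2 * H * (m * c - n * s)) (y := y + 2 * H * (m * s + n * c)) h1 h2 h3
    (by push_cast; exact h4)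
  refine ⟨P, hP, m + m', n + n', ?_⟩
  have e1 : x + ((2 * H : ℤ) : ℝ) * (((m + m' : ℤ) : ℝ) * c - ((n + n' : ℤ) : ℝ) * s) =
      x + 2 * H * (m * c - n * s) + ((2 * H : ℤ) : ℝ) * (m' * c - n' * s) := by
    push_cast; ring
  have e2 : y + ((2 * H : ℤ) : ℝ) * (((m + m' : ℤ) : ℝ) * s + ((n + n' : ℤ) : ℝ) * c) =
      y + 2 * H * (m * s + n * c) + ((2 * H : ℤ) : ℝ) * (m' * s + n' * c) := by
    push_cast; ring
  rw [e1, e2]
  exact h

/-- soundness for all rotations -/
theorem check_plane {H Y0 q : ℤ} {pcs : List Piece} (hpos : posAll pcs = true) (hH : 0 < H)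
    (hq : 0 < q) {D : List (ℤ × List (List (ℕ × ℤ × ℤ) × ℤ × ℤ × ℤ))}
    (hD : allOK (2 * H) H Y0 q pcs 0 D = true)
    {c s : ℝ} (hcs : c ^ 2 + s ^ 2 = 1) (x y : ℝ) :
    Fnd (2 * H) pcs c s x y := by
  rcases le_total 0 c with hc | hc <;> rcases le_total 0 s with hs | hs
  · exact check_plane_nonneg hpos hH hq hD hcs hc hs x y
  · -- `c ≥ 0`, `s ≤ 0`: use `(-s, c)`
    obtain ⟨P, hP, m, n, h⟩ := check_plane_nonneg hpos hH hq hD (c := -s) (s := c)
      (by linarith) (by linarith) hc x y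
    refine ⟨P, hP, -n, m, ?_⟩
    have e1 : (((-n : ℤ) : ℝ) * c - m * s) = m * (-s) - n * c := by push_cast; ring
    have e2 : (((-n : ℤ) : ℝ) * s + m * c) = m * c + n * (-s) := by push_cast; ring
    rw [e1, e2]; exact h
  · -- `c ≤ 0`, `s ≥ 0`: use `(s, -c)`
    obtain ⟨P, hP, m, n, h⟩ := check_plane_nonneg hpos hH hq hD (c := s) (s := -c)
      (by linarith) hs (by linarith) x y
    refine ⟨P, hP, n, -m, ?_⟩
    have e1 : ((n : ℝ) * c - ((-m : ℤ) : ℝ) * s) = m * s - n * (-c) := by push_cast; ring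
    have e2 : ((n : ℝ) * s + ((-m : ℤ) : ℝ) * c) = m * (-c) + n * s := by push_cast; ring
    rw [e1, e2]; exact h
  · obtain ⟨P, hP, m, n, h⟩ := check_plane_nonneg hpos hH hq hD (c := -c) (s := -s)
      (by linarith) (by linarith) (by linarith) x y
    refine ⟨P, hP, -m, -n, ?_⟩
    have e1 : (((-m : ℤ) : ℝ) * c - ((-n : ℤ) : ℝ) * s) = m * (-c) - n * (-s) := by
      push_cast; ring
    have e2 : (((-m : ℤ) : ℝ) * s + ((-n : ℤ) : ℝ) * c) = m * (-s) + n * (-c) := by
      push_cast; ring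
    rw [e1, e2]; exact h

/-- the Euclidean plane -/
abbrev Plane := EuclideanSpace ℝ (Fin 2)

/-- a plane isometry and the standard lattice -/
lemma isometry_lattice (σ : Plane ≃ᵢ Plane) : ∃ c s : ℝ, c ^ 2 + s ^ 2 = 1 ∧
    ∃ d : ℤ, ∀ m n : ℤ, σ (!₂[(m : ℝ), (n : ℝ)]) =
      !₂[(σ 0) 0 + (m * c - n * d * s), (σ 0) 1 + (m * s + n * d * c)] ∧ d * d = 1 := by
  set A := σ.toRealLinearIsometryEquiv with hA
  have hAx : ∀ v, σ v = σ 0 + A v := by
    intro v
    rw [hA, IsometryEquiv.toRealLinearIsometryEquiv_apply]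
    abel
  set e0 : Plane := !₂[1, 0] with he0
  set e1 : Plane := !₂[0, 1] with he1
  have hin : ∀ v w : Plane, inner ℝ v w = v 0 * w 0 + v 1 * w 1 := by
    intro v w
    rw [PiLp.inner_apply, Fin.sum_univ_two]
    simp [mul_comm]
  have h00 : inner ℝ (A e0) (A e0) = (1 : ℝ) := by
    rw [LinearIsometryEquiv.inner_map_map, hin, he0]; simp
  have h11 : inner ℝ (A e1) (A e1) = (1 : ℝ) := by
    rw [LinearIsometryEquiv.inner_map_map, hin, he1]; simp
  have h01 : inner ℝ (A e0) (A e1) = (0 : ℝ) := by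
    rw [LinearIsometryEquiv.inner_map_map, hin, he0, he1]; simp
  rw [hin] at h00 h11 h01
  set c := (A e0) 0 with hc
  set s := (A e0) 1 with hs
  set a := (A e1) 0 with ha
  set b := (A e1) 1 with hb
  have hcs : c ^ 2 + s ^ 2 = 1 := by linarith [h00]
  have hd : (c * b - s * a) ^ 2 = 1 := by nlinarith
  have ha' : a = -(s * (c * b - s * a)) := by
    have : a = a * (c * c + s * s) - c * (c * a + s * b) := by rw [h00, h01]; ring
    nlinarith
  have hb' : b = c * (c * b - s * a) := by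
    have : b = b * (c * c + s * s) - s * (c * a + s * b) := by rw [h00, h01]; ring
    nlinarith
  have hdd : ∃ d : ℤ, (d : ℝ) = c * b - s * a ∧ d * d = 1 := by
    have h0 : (c * b - s * a - 1) * (c * b - s * a + 1) = 0 := by linear_combination hd
    rcases mul_eq_zero.mp h0 with h | h
    · exact ⟨1, by push_cast; linarith, by norm_num⟩
    · exact ⟨-1, by push_cast; linarith, by norm_num⟩
  obtain ⟨d, hdr, hd1⟩ := hdd
  refine ⟨c, s, hcs, d, ?_⟩
  intro m n
  refine ⟨?_, hd1⟩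
  have hv : (!₂[(m : ℝ), (n : ℝ)] : Plane) = (m : ℝ) • e0 + (n : ℝ) • e1 := by
    ext i
    fin_cases i <;> simp [he0, he1]
  rw [hAx, hv, map_add, map_smul, map_smul]
  ext i
  fin_cases i
  · simp only [PiLp.add_apply, PiLp.smul_apply, smul_eq_mul, Fin.zero_eta, Fin.isValue,
      Matrix.cons_val_zero]
    rw [← hc, ← ha, ha', ← hdr]; ring
  · simp only [PiLp.add_apply, PiLp.smul_apply, smul_eq_mul, Fin.mk_one, Fin.isValue,
      Matrix.cons_val_one, Matrix.cons_val_fin_one]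
    rw [← hs, ← hb, hb', ← hdr]; ring

/-- lattice points of the plane -/
def IsLatticePoint (z : Plane) : Prop := ∃ m n : ℤ, z 0 = m ∧ z 1 = n

/-- every congruent copy contains a lattice point -/
def LatticeCatching (E : Set Plane) : Prop :=
  ∀ ρ : Plane ≃ᵢ Plane, ∃ z ∈ ρ '' E, IsLatticePoint z

/-- the set defined by a list of pieces, at scale `1 / U` -/
def setOf' (U : ℤ) (pcs : List Piece) : Set Plane :=
  {z | ∃ P ∈ pcs, inP P (U * z 0) (U * z 1)}

theorem catching_of_check {H Y0 q : ℤ} {pcs : List Piece} (hpos : posAll pcs = true) (hH : 0 < H)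
    (hq : 0 < q) {D : List (ℤ × List (List (ℕ × ℤ × ℤ) × ℤ × ℤ × ℤ))}
    (hD : allOK (2 * H) H Y0 q pcs 0 D = true) : LatticeCatching (setOf' (2 * H) pcs) := by
  intro ρ
  obtain ⟨c, s, hcs, d, hd⟩ := isometry_lattice ρ.symm
  obtain ⟨P, hP, m, n, h⟩ := check_plane hpos hH hq hD hcs
    (((2 * H : ℤ) : ℝ) * (ρ.symm 0) 0) (((2 * H : ℤ) : ℝ) * (ρ.symm 0) 1)
  obtain ⟨h1, hdd⟩ := hd m (d * n)
  refine ⟨!₂[(m : ℝ), ((d * n : ℤ) : ℝ)], ⟨ρ.symm !₂[(m : ℝ), ((d * n : ℤ) : ℝ)], ?_, ?_⟩, m, d * n,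
    by simp, by simp⟩
  · rw [h1]
    refine ⟨P, hP, ?_⟩
    have hdr : (d : ℝ) * d = 1 := by exact_mod_cast hdd
    simp only [Matrix.cons_val_zero, Matrix.cons_val_one,
      Matrix.cons_val_fin_one]
    have e1 : ((2 * H : ℤ) : ℝ) * ((ρ.symm 0) 0 + (m * c - ((d * n : ℤ) : ℝ) * d * s)) =
        ((2 * H : ℤ) : ℝ) * (ρ.symm 0) 0 + ((2 * H : ℤ) : ℝ) * (m * c - n * s) := by
      push_cast
      linear_combination (-(2 * (H : ℝ) * n * s)) * hdr
    have e2 : ((2 * H : ℤ) : ℝ) * ((ρ.symm 0) 1 + (m * s + ((d * n : ℤ) : ℝ) * d * c)) =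
        ((2 * H : ℤ) : ℝ) * (ρ.symm 0) 1 + ((2 * H : ℤ) : ℝ) * (m * s + n * c) := by
      push_cast
      linear_combination (2 * (H : ℝ) * n * c) * hdr
    rw [e1, e2]
    exact h
  · exact ρ.apply_symm_apply _

end Pool.Agent.LatCatch
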